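import Pool.Agent.Helper66.SB.Goals

/-!
# Project SB (MP_d3128a_ag), packet SLI: the slices lemma
-/

set_option autoImplicit false

open Module MvPolynomial

noncomputable section

namespace Pool.Agent.Helper23.SB

open Pool.Agent.Helper66.SB Helper18.Shgh

/-- the slices lemma from the general position lemma, the limit functionals and the decomposition -/
theorem gSLI (hGEN : G_GEN) (hLIM : G_LIM) (hDEC : G_DEC) : G_SLI := by
  classical
  intro F hF hFy W hWf hFG m u N l hN hl hcase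
  have hF0 : F ≠ 0 := hF.ne_zero
  obtain ⟨U, hUW, hU0, hUd, hUF, hUe⟩ := hDEC F W hF0 hWf hFG
  have hUf : ∀ i, FiniteDimensional ℂ (U i) := fun i =>
    have := hWf i
    Submodule.finiteDimensional_of_le (hUW i)
  -- points of the curve
  obtain ⟨R, hR, hT⟩ : ∃ R : Fin u → Fin 2 → ℂ,
      (∀ a, eval (R a) F = 0 ∧ eval (R a) (pderiv 1 F) ≠ 0) ∧
      ∀ i : Fin (m + 1), finrank ℂ ↥(U i ⊓ ⨅ a, OC F (R a) (ee m (N a) (l a) i)) ≤
        finrank ℂ (U i) - ∑ a, ee m (N a) (l a) i := by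
    rcases hcase with hc | hc
    · refine hGEN F hF hFy (m + 1) u (fun i => U i) (fun i => hUf i) ?_
        (fun i a => ee m (N a) (l a) i)
      intro i v hv hFv
      rcases Nat.eq_zero_or_pos (i : ℕ) with hi | hi
      · simp only [hi] at hv
        rw [hU0] at hv
        exact hc v hv hFv
      · obtain ⟨j, hj⟩ : ∃ j, (i : ℕ) = j + 1 := ⟨(i : ℕ) - 1, by omega⟩
        simp only [hj] at hv
        exact hUF j v hv hFv
    · obtain ⟨U', hU'0, hU'1⟩ : ∃ U' : ℕ → Submodule ℂ R2, U' 0 = ⊥ ∧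
          ∀ i, U' (i + 1) = U (i + 1) :=
        ⟨fun i => match i with
          | 0 => ⊥
          | (i + 1) => U (i + 1), rfl, fun i => rfl⟩
      obtain ⟨R, hR, hT⟩ := hGEN F hF hFy (m + 1) u (fun i => U' i)
        (fun i => by
          rcases Nat.eq_zero_or_pos (i : ℕ) with hi | hi
          · rw [hi, hU'0]; infer_instance
          · obtain ⟨j, hj⟩ : ∃ j, (i : ℕ) = j + 1 := ⟨(i : ℕ) - 1, by omega⟩
            rw [hj, hU'1]; exact hUf _)
        (fun i v hv hFv => by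
          rcases Nat.eq_zero_or_pos (i : ℕ) with hi | hi
          · rw [hi, hU'0] at hv
            exact (Submodule.mem_bot ℂ).1 hv
          · obtain ⟨j, hj⟩ : ∃ j, (i : ℕ) = j + 1 := ⟨(i : ℕ) - 1, by omega⟩
            rw [hj, hU'1] at hv
            exact hUF j v hv hFv)
        (fun i a => Pool.Agent.Helper66.SB.ee m (N a) (l a) i)
      refine ⟨R, hR, fun i => ?_⟩
      rcases Nat.eq_zero_or_pos (i : ℕ) with hi | hi
      · have h0 : ∑ a, Pool.Agent.Helper66.SB.ee m (N a) (l a) i = 0 := by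
          apply Finset.sum_eq_zero
          intro a _
          rw [hi, hc a, Pool.Agent.Helper66.SB.ee, if_pos rfl, Nat.zero_sub]
        rw [h0, Nat.sub_zero]
        have := hUf i
        exact Submodule.finrank_mono inf_le_left
      · obtain ⟨j, hj⟩ : ∃ j, (i : ℕ) = j + 1 := ⟨(i : ℕ) - 1, by omega⟩
        have h1 := hT i
        rw [hj, hU'1] at h1
        rw [hj]
        exact h1
  -- the functionals
  obtain ⟨c, hc⟩ : ∃ c : ℕ, c = m * (m + 1) + 1 := ⟨_, rfl⟩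
  obtain ⟨β, hβ⟩ : ∃ β : ℕ, β = (c + 1) * (m + 1) + 1 := ⟨_, rfl⟩
  choose K Λ hΛ1 hΛ2 using fun a : Fin u => hLIM F (R a) m (N a) (l a) c β (hR a).1 (hR a).2
    (hN a) (hl a) (by omega) (by omega)
  let E := (i : Fin (m + 1)) → U i
  have : ∀ i : Fin (m + 1), FiniteDimensional ℂ (U i) := fun i => hUf i
  let inc : E →ₗ[ℂ] (Fin (m + 1) → R2) := LinearMap.pi fun i => (U i).subtype ∘ₗ LinearMap.proj i
  have hinc : ∀ (g : E) i, inc g i = (g i : R2) := fun g i => rfl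
  let ΛE : E →ₗ[ℂ] ((Σ a : Fin u, Fin (K a)) → Polynomial ℂ) :=
    LinearMap.pi fun x => Λ x.1 x.2 ∘ₗ inc
  have hΛE : ∀ (g : E) x, ΛE g x = Λ x.1 x.2 (inc g) := fun g x => rfl
  obtain ⟨G, hG0, hG⟩ := semicont ΛE (Polynomial.aeval (0 : ℂ))
  have hGne : G ≠ 0 := by
    rintro rfl
    exact hG0 (map_zero _)
  obtain ⟨s, hs, hGs⟩ := exists_ne_zero_eval_ne_zero G hGne
  have hker := hG (Polynomial.aeval s) (by rwa [Polynomial.coe_aeval_eq_eval])
  -- the limit
  have hlim : finrank ℂ (LinearMap.ker (spec ΛE (Polynomial.aeval (0 : ℂ)))) ≤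
      ∑ i : Fin (m + 1), finrank ℂ ↥(U i ⊓ ⨅ a, OC F (R a) (ee m (N a) (l a) i)) := by
    have : ∀ i : Fin (m + 1),
        FiniteDimensional ℂ ↥(U i ⊓ ⨅ a, OC F (R a) (ee m (N a) (l a) i)) := fun i =>
      Submodule.finiteDimensional_of_le inf_le_left
    let ψ : LinearMap.ker (spec ΛE (Polynomial.aeval (0 : ℂ))) →ₗ[ℂ]
        ((i : Fin (m + 1)) → ↥(U i ⊓ ⨅ a, OC F (R a) (ee m (N a) (l a) i))) :=
      LinearMap.pi fun i => ((U i).subtype ∘ₗ LinearMap.proj i ∘ₗ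
        (LinearMap.ker (spec ΛE (Polynomial.aeval (0 : ℂ)))).subtype).codRestrict
          (U i ⊓ ⨅ a, OC F (R a) (ee m (N a) (l a) i)) (fun x => by
            refine Submodule.mem_inf.2 ⟨(x.1 i).2, ?_⟩
            rw [Submodule.mem_iInf]
            intro a
            refine hΛ2 a (inc x.1) ?_ i
            intro b
            have h1 := mem_ker_spec.1 x.2 ⟨a, b⟩
            rw [Polynomial.coe_aeval_eq_eval] at h1
            exact h1)
    have hψ : Function.Injective ψ := by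
      intro x y hxy
      apply Subtype.ext
      funext i
      apply Subtype.ext
      have h1 : ((ψ x i : ↥(U i ⊓ ⨅ a, OC F (R a)
        (Pool.Agent.Helper66.SB.ee m (N a) (l a) i))) : R2) = (ψ y i).1 := by rw [hxy]
      exact h1
    have h1 := LinearMap.finrank_le_finrank_of_injective hψ
    rwa [finrank_pi_fintype] at h1
  -- the general member
  let Θ : E →ₗ[ℂ] R2 := ∑ i : Fin (m + 1),
    (LinearMap.mulLeft ℂ (C (s ^ (β * (i : ℕ) + gm c i)) * F ^ (m - (i : ℕ)))) ∘ₗ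
      (U i).subtype ∘ₗ LinearMap.proj i
  have hΘ : ∀ g : E, Θ g =
      ∑ i : Fin (m + 1), C (s ^ (β * (i : ℕ) + gm c i)) * F ^ (m - (i : ℕ)) * (g i : R2) := by
    intro g
    rw [LinearMap.sum_apply]
    rfl
  refine ⟨fun a => ![R a 0, R a 1 + s ^ (β + th c (l a))], ?_⟩
  have hM : (W m ⊓ ⨅ a, Submodule.restrictScalars ℂ
      (mI (![R a 0, R a 1 + s ^ (β + th c (l a))] : Fin 2 → ℂ) ^ (N a) : Ideal R2)) ≤
      (LinearMap.ker (spec ΛE (Polynomial.aeval s))).map Θ := by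
    intro f hf
    obtain ⟨hf1, hf2⟩ := Submodule.mem_inf.1 hf
    obtain ⟨g, hg, hfg⟩ := hUe m (fun i => s ^ (β * i + gm c i)) (fun i => pow_ne_zero _ hs) f hf1
    refine ⟨fun i => ⟨g i, hg i⟩, ?_, ?_⟩
    · refine mem_ker_spec.2 ?_
      rintro ⟨a, b⟩
      rw [Polynomial.coe_aeval_eq_eval, hΛE]
      refine hΛ1 a s (inc fun i => ⟨g i, hg i⟩) hs ?_ b
      have h1 := (Submodule.mem_iInf _).1 hf2 a
      rw [hfg] at h1
      exact h1
    · rw [hΘ, hfg]
  have h1 := (Submodule.finrank_mono hM).trans (Submodule.finrank_map_le Θ _)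
  have h2 : ∑ i : Fin (m + 1), finrank ℂ ↥(U i ⊓ ⨅ a, OC F (R a) (ee m (N a) (l a) i)) ≤
      ∑ i : Fin (m + 1), (finrank ℂ (U i) - ∑ a, ee m (N a) (l a) i) :=
    Finset.sum_le_sum fun i _ => hT i
  have h3 := Fin.sum_univ_eq_sum_range
    (fun i => finrank ℂ (U i) - ∑ a, ee m (N a) (l a) i) (m + 1)
  have h4 := Finset.sum_range_succ' (fun i => finrank ℂ (U i) - ∑ a, ee m (N a) (l a) i) m
  have h5 : ∑ i ∈ Finset.range m, (finrank ℂ (U (i + 1)) - ∑ a, ee m (N a) (l a) (i + 1)) =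
      ∑ i ∈ Finset.range m, (finrank ℂ (W (i + 1)) - finrank ℂ (W i) -
        ∑ a, ee m (N a) (l a) (i + 1)) := by
    refine Finset.sum_congr rfl fun i _ => ?_
    rw [← hUd i, Nat.add_sub_cancel]
  have h6 : finrank ℂ (U 0) = finrank ℂ (W 0) := by rw [hU0]
  rw [← h5, ← h6]
  have h7 : ∑ i : Fin (m + 1), (finrank ℂ (U i) - ∑ a, ee m (N a) (l a) i) =
      ∑ i ∈ Finset.range m, (finrank ℂ (U (i + 1)) - ∑ a, ee m (N a) (l a) (i + 1)) +
        (finrank ℂ (U 0) - ∑ a, ee m (N a) (l a) 0) := by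
    rw [← h4, ← h3]
  calc _ ≤ _ := h1
    _ ≤ _ := hker
    _ ≤ _ := hlim
    _ ≤ _ := h2
    _ = _ := h7

end Pool.Agent.Helper23.SB
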